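import Pool.Agent.X164.MP.BilD

set_option autoImplicit false

open Matrix

namespace Pool.Agent.Results.MP_7ba156_nt.BilinearSystemsModuloPrimes

/-- The record scale `f(x) = log x (log₂ x)² log₄ x / (log₃ x)²` (iterated natural logarithms): the
order of the largest prime gaps which are known to occur up to `x`. -/
noncomputable def f (x : ℝ) : ℝ :=
  Real.log x * (Real.log (Real.log x)) ^ 2 * Real.log (Real.log (Real.log (Real.log x))) /
    (Real.log (Real.log (Real.log x))) ^ 2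

/-- **Record prime gaps around the values of systems of bilinear forms modulo a prime, on arbitrary
sets and in boxes.** For all `r ≥ 1` and `ε > 0` there are `κ > 0` and `p₀` such that for every prime
`p ≥ p₀`, every `d`, all `d × d` matrices `M 0, …, M (r - 1)` over `ℤ/p` every nontrivial linear
combination of which is invertible, ARBITRARY functions `φ j`, `χ j` from `(ℤ/p) ^ d` to `ℤ/p`,
ARBITRARY sets `E`, `F` of vectors in `(ℤ/p) ^ d` and all intervals `(L j, R j]` in `[0, p)` of length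
at least `p ^ ε` with `√(|E| |F|) ∏ (R j - L j) ≥ p ^ (d / 2 + r + ε)`, there are `x ∈ E` and `y ∈ F`
such that, for all `j`, the least nonnegative residue of `xᵀ M j y + φ j x + χ j y` is in
`(L j, R j]` and no prime is within `κ f(p)` of it. -/
theorem result (r : ℕ) (hr : 1 ≤ r) (ε : ℝ) (hε : 0 < ε) : ∃ κ : ℝ, 0 < κ ∧ ∃ p₀ : ℕ,
    ∀ (p : ℕ) [Fact p.Prime], p₀ ≤ p → ∀ (d : ℕ) (M : Fin r → Matrix (Fin d) (Fin d) (ZMod p)),
      (∀ h : Fin r → ZMod p, h ≠ 0 → (∑ j, h j • M j).det ≠ 0) →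
      ∀ (φ χ : Fin r → (Fin d → ZMod p) → ZMod p) (E F : Finset (Fin d → ZMod p))
        (L R : Fin r → ℕ), (∀ j, R j < p) → (∀ j, (p : ℝ) ^ ε ≤ (R j : ℝ) - L j) →
      (p : ℝ) ^ ((d : ℝ) / 2 + r + ε) ≤
        Real.sqrt ((E.card : ℝ) * F.card) * ∏ j, ((R j : ℝ) - L j) →
      ∃ x ∈ E, ∃ y ∈ F, ∀ j, L j < (x ⬝ᵥ (M j *ᵥ y) + φ j x + χ j y).val ∧
        (x ⬝ᵥ (M j *ᵥ y) + φ j x + χ j y).val ≤ R j ∧
        ∀ q : ℕ, q.Prime →
          κ * f p < |(q : ℝ) - ((x ⬝ᵥ (M j *ᵥ y) + φ j x + χ j y).val : ℝ)| :=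
  Pool.Agent.X164.MP.bilinear_main r hr ε hε

end Pool.Agent.Results.MP_7ba156_nt.BilinearSystemsModuloPrimes
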