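import Mathlib
import Pool.Agent.X145.ML.Henon

set_option autoImplicit false

/-!
# Record prime gaps around all the points of an orbit of Hénon maps

Let `f(Z) = log Z (log₂ Z)² log₄ Z / (log₃ Z)²` (iterated natural logarithms), the size of the largest gaps
between consecutive primes that are known to occur up to `Z`.

Let `P_0, …, P_{N-1}` be any integer polynomials of degree at least two and `δ_0, …, δ_{N-1}` any nonzero integers.
For all large `Z` every square of side `Z` of `ℤ²` contains a point `(x_0, x_1)` such that ALL the terms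
`x_0, x_1, …, x_{N+1}` of the sequence `x_{n+2} = δ_n x_n + P_n(x_{n+1})` are surrounded by integers with a prime
factor `≤ Z ^ (1/10)`, up to the distance `c f(Z)`. If `P_n = P` and `δ_n = δ` these are the coordinates of the first
iterates of the point under the generalised Hénon map `(x, y) ↦ (y, δ x + P(y))`; the compositions of such
maps are, up to conjugation, all the polynomial automorphisms of the plane with interesting dynamics. The numbers are
polynomials in `x_0, x_1` of rapidly growing degrees, not homogeneous for any weights.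

Modulo a large prime `p` the map `(x_0, x_1) ↦ (x_n, x_{n+1})` is bijective, hence every `x_n` takes all values
equally often; for `m < n` the equations `x_m = r`, `x_n = s` have at most `deg P_m ⋯ deg P_{n-2}` solutions, since
`x_n` is a nonconstant polynomial in `x_{m+1}`, if `x_m = r` is fixed. The sieve is that of the starting library
(`Pool.Agent.Y837.SV.gen3t`).
-/

namespace Pool.Agent.Results.MP_7ba156_nt.HenonOrbits

open Polynomial

/-- The record scale `f(Z) = log Z (log₂ Z)² log₄ Z / (log₃ Z)²` (iterated natural logarithms). -/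
noncomputable def f (Z : ℝ) : ℝ :=
  Real.log Z * (Real.log (Real.log Z)) ^ 2 * Real.log (Real.log (Real.log (Real.log Z))) /
    (Real.log (Real.log (Real.log Z))) ^ 2

/-- Every integer at distance at most `c f(Z)` from `N` has a prime factor `p ≤ Z ^ (1/10)`. -/
def Isolated (c : ℝ) (Z : ℕ) (N : ℤ) : Prop :=
  ∀ n : ℤ, |(n : ℝ) - (N : ℝ)| ≤ c * f Z →
    ∃ p : ℕ, p.Prime ∧ (p : ℝ) ≤ (Z : ℝ) ^ (1 / 10 : ℝ) ∧ (p : ℤ) ∣ n

/-- **Record gaps around the orbits of Hénon maps.** Let `P n`, `n < N`, be integer polynomials of degree `≥ 2` and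
`δ n ≠ 0`. There are `c > 0` and `Z₀` such that for `Z ≥ Z₀` every square `(M₀, M₀ + Z] × (M₁, M₁ + Z]` contains an
integer point `(x 0, x 1)` such that for the sequence `x (n + 2) = δ n * x n + P n (x (n + 1))` all of
`x 0, …, x (N + 1)` are isolated. -/
theorem result (N : ℕ) (δ : ℕ → ℤ) (P : ℕ → ℤ[X]) (hδ : ∀ n < N, δ n ≠ 0)
    (hP : ∀ n < N, 2 ≤ (P n).natDegree) : ∃ c : ℝ, 0 < c ∧ ∃ Z₀ : ℝ, ∀ Z : ℕ, Z₀ ≤ Z →
    ∀ M₀ M₁ : ℤ, ∃ x : ℕ → ℤ, (M₀ < x 0 ∧ x 0 ≤ M₀ + Z) ∧ (M₁ < x 1 ∧ x 1 ≤ M₁ + Z) ∧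
      (∀ n < N, x (n + 2) = δ n * x n + (P n).eval (x (n + 1))) ∧
      ∀ n ≤ N + 1, Isolated c Z (x n) := by
  classical
  obtain ⟨δ', hδ', hδ0⟩ : ∃ δ' : ℕ → ℤ, (∀ n < N, δ' n = δ n) ∧ ∀ n, δ' n ≠ 0 := by
    refine ⟨fun n => if n < N then δ n else 1, fun n hn => if_pos hn, fun n => ?_⟩
    by_cases hn : n < N
    · simpa [hn] using hδ n hn
    · simp [hn]
  obtain ⟨P', hP', hP0⟩ : ∃ P' : ℕ → ℤ[X], (∀ n < N, P' n = P n) ∧ ∀ n, 2 ≤ (P' n).natDegree := by
    refine ⟨fun n => if n < N then P n else X ^ 2, fun n hn => if_pos hn, fun n => ?_⟩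
    by_cases hn : n < N
    · simpa [hn] using hP n hn
    · simp [hn]
  obtain ⟨c, hc, Z₀, h⟩ := Pool.Agent.X145.ML.henon (N + 1) δ' P' (fun n _ => hδ0 n)
    (fun n _ => hP0 n)
  refine ⟨c, hc, Z₀, fun Z hZ M₀ M₁ => ?_⟩
  obtain ⟨A, hA1, hA2⟩ := h Z hZ ![M₀, M₁]
  refine ⟨fun n => Pool.Agent.X145.ML.hen δ' P' (A 0) (A 1) n, hA1 0, hA1 1, fun n hn => ?_,
    fun n hn t ht => hA2 n hn t ht⟩
  have e : Pool.Agent.X145.ML.hen δ' P' (A 0) (A 1) (n + 2) =
    ((δ' n : ℤ) : ℤ) * Pool.Agent.X145.ML.hen δ' P' (A 0) (A 1) n +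
      Polynomial.aeval (Pool.Agent.X145.ML.hen δ' P' (A 0) (A 1) (n + 1)) (P' n) := rfl
  show Pool.Agent.X145.ML.hen δ' P' (A 0) (A 1) (n + 2) = _
  rw [e, hδ' n hn, hP' n hn, Polynomial.coe_aeval_eq_eval]

end Pool.Agent.Results.MP_7ba156_nt.HenonOrbits
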