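import Pool.Agent.X29.IS.Sub

set_option autoImplicit false

open Filter MeasureTheory ProbabilityTheory

/-- **Record gaps between primes at sums of independent random vectors, and at subset sums.**
`F(x) = log x (log log x)² log log log log x / (log log log x)²`. -/
theorem Pool.Agent.Results.MP_7ba156_nt.SumsOfIndependentVectors.result (d r : ℕ) (hd : 1 ≤ d) (hr : 1 ≤ r)
    (η : ℝ) (h0 : 0 < η) (h1 : η ≤ 1) :
    -- (1) sums of independent vectors in `ℤ ^ d`, at the ends of `r` consecutive blocks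
    (∃ κ : ℝ, 0 < κ ∧ ∀ᶠ M : ℝ in atTop, ∀ (Ω : Type) (_ : MeasurableSpace Ω) (μ : Measure Ω),
      IsProbabilityMeasure μ → ∀ (ι : Type) (_ : Fintype ι) (X : ι → Ω → Fin d → ℤ), (∀ i, Measurable (X i)) →
      iIndepFun X μ → ∀ lev : ι → Fin r,
      (∀ p : ℕ, p.Prime → (p : ℝ) ≤ M ^ η → ∀ g : Fin d → ℤ, (∃ j, ¬ (p : ℤ) ∣ g j) → ∀ k : Fin r,
        ∃ w : ι → ℝ, (∀ i, lev i = k → ∀ a : ℤ, μ.real {x | (p : ℤ) ∣ ∑ j, g j * X i x j - a} ≤ 1 - w i) ∧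
          M ^ η ≤ ∑ i with lev i = k, w i) →
      M ^ (-η) ≤ μ.real {x | ∀ k j, ∀ p : ℕ, p.Prime →
        κ * (Real.log M * Real.log (Real.log M) ^ 2 * Real.log (Real.log (Real.log (Real.log M))) /
          Real.log (Real.log (Real.log M)) ^ 2) < |(p : ℝ) - ((∑ i with lev i ≤ k, X i x j : ℤ) : ℝ)|}) ∧
    -- (2) subset sums
    (∃ κ : ℝ, 0 < κ ∧ ∀ᶠ M : ℝ in atTop, ∀ (n : ℕ) (a : Fin n → Fin d → ℤ),
      (∀ p : ℕ, p.Prime → (p : ℝ) ≤ M ^ η → ∀ g : Fin d → ℤ, (∃ j, ¬ (p : ℤ) ∣ g j) →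
        ∃ U : Finset (Fin n), M ^ η ≤ U.card ∧ ∀ i ∈ U, ¬ (p : ℤ) ∣ ∑ j, g j * a i j) →
      ∃ T : Finset (Finset (Fin n)), M ^ (-η) * 2 ^ n ≤ T.card ∧ ∀ S ∈ T, ∀ j, ∀ p : ℕ, p.Prime →
        κ * (Real.log M * Real.log (Real.log M) ^ 2 * Real.log (Real.log (Real.log (Real.log M))) /
          Real.log (Real.log (Real.log M)) ^ 2) < |(p : ℝ) - ((∑ i ∈ S, a i j : ℤ) : ℝ)|) :=
  ⟨Pool.Agent.X29.IS.sums d r hd hr η h0 h1, Pool.Agent.X29.IS.subsets d hd η h0 h1⟩
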