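import Mathlib
import Pool.Agent.X24.SE.Uni

set_option autoImplicit false

/-!
# Record prime gaps around the values of all polynomials `β x ^ a + g(y)` with `gcd(a, deg g) = 1`
at one point of every square

Let `f(Z) = log Z (log₂ Z)² log₄ Z / (log₃ Z)²` (iterated natural logarithms), the size of the largest gaps
between consecutive primes that are known to occur up to `Z`.

For every `k` there is `c > 0` such that for all large `Z` every square of side `Z` of the plane contains an
integer point `(x, y)` such that for ALL exponents `1 ≤ a ≤ k`, all integers `β ≠ 0`, `|β| ≤ k`, and ALL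
polynomials `g` of degree `≤ k`, with coefficients bounded by `k`, whose degree is at least `1` and prime to `a`,
every integer at distance at most `c f(Z)` from `β x ^ a + g(y)` has a prime factor `p ≤ Z ^ (1/10)`, provided
that `β` and the coefficients of positive degree of `g` have no common factor. For instance all the values
`x² + y³ + A y + B` (`|A|, |B| ≤ k`) are surrounded by prime-free intervals of record length at one point.

Method: the criterion of the starting library (`Pool.Agent.Y837.SW.crit4`, helper837) asks for the
equidistribution of the fibres modulo the primes and for boundedly many points on the intersections of two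
fibres.  Here the fibres are the curves `β x ^ a = r - g(y)`; the number of points is the sum over the characters
`χ` with `χ ^ a = 1` of the sums `∑_y χ((r - g(y)) / β)`, to which Weil's bound applies (`Y837.SW.wele`): a
polynomial whose degree is prime to `a` is not a constant times a `d`-th power, `d ∣ a`, `d > 1`.  Two such curves
have boundedly many common points by elimination of `x`: the eliminating polynomial cannot vanish, by comparison
of the degrees when `a ≠ b`, since `b deg g = a deg h` would give `a = b`.
-/

namespace Pool.Agent.Results.MP_7ba156_nt.SuperellipticPolynomials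

open Polynomial

/-- The record scale `f(Z) = log Z (log₂ Z)² log₄ Z / (log₃ Z)²` (iterated natural logarithms). -/
noncomputable def f (Z : ℝ) : ℝ :=
  Real.log Z * (Real.log (Real.log Z)) ^ 2 * Real.log (Real.log (Real.log (Real.log Z))) /
    (Real.log (Real.log (Real.log Z))) ^ 2

/-- For every `k` there is `c > 0` such that for all large `Z` every square `(M, M + Z] × (N, N + Z]` contains an
integer point `(x, y)` such that for all `1 ≤ a ≤ k`, all integers `β ≠ 0`, `|β| ≤ k`, and all integer
polynomials `g` with `1 ≤ deg g ≤ k`, `gcd(a, deg g) = 1`, coefficients bounded by `k` and no prime dividing `β`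
and all the coefficients of `g` of positive degree, every integer `n` at distance at most `c f(Z)` from
`β x ^ a + g(y)` has a prime factor `p ≤ Z ^ (1/10)`. -/
theorem result (k : ℕ) : ∃ c : ℝ, 0 < c ∧ ∃ Z₀ : ℝ, ∀ Z : ℕ, Z₀ ≤ Z → ∀ M N : ℤ,
    ∃ x y : ℤ, (M < x ∧ x ≤ M + Z) ∧ (N < y ∧ y ≤ N + Z) ∧
      ∀ (a : ℕ) (β : ℤ) (g : ℤ[X]), 1 ≤ a → a ≤ k → β ≠ 0 → |β| ≤ k →
        1 ≤ g.natDegree → g.natDegree ≤ k → Nat.Coprime a g.natDegree → (∀ m, |g.coeff m| ≤ k) →
        (∀ q : ℕ, q.Prime → ¬ ((q : ℤ) ∣ β ∧ ∀ m : ℕ, 1 ≤ m → (q : ℤ) ∣ g.coeff m)) →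
        ∀ n : ℤ, |(n : ℝ) - ((β * x ^ a + g.eval y : ℤ) : ℝ)| ≤ c * f Z →
          ∃ p : ℕ, p.Prime ∧ (p : ℝ) ≤ (Z : ℝ) ^ (1 / 10 : ℝ) ∧ (p : ℤ) ∣ n :=
  Pool.Agent.X24.SE.uni k

end Pool.Agent.Results.MP_7ba156_nt.SuperellipticPolynomials
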